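import Mathlib

/-! Chebyshev type expansions evaluated on Fibonacci type sequences -/

set_option autoImplicit false
set_option linter.unusedVariables false

namespace Pool.Agent.N926.Fib

open Finset

/-- the product `∏_{1 ≤ j ≤ k} ((2j-1)^2 - n^2)` -/
def Pr (n : ℚ) (k : ℕ) : ℚ := ∏ j ∈ range k, ((2*(j:ℚ)+1)^2 - n^2)

theorem Pr_shift (n : ℚ) (k : ℕ) : Pr (n+2) (k+1) = -(Pr n k * (2*k+1+n) * (2*k+3+n)) := by
  unfold Pr
  induction k with
  | zero => simp; ring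
  | succ k ih =>
    rw [prod_range_succ, ih, prod_range_succ]
    push_cast
    ring

theorem Pr_neg (n : ℚ) (k : ℕ) : Pr (-n) k = Pr n k := by
  unfold Pr
  refine prod_congr rfl fun j _ => ?_
  ring

/-- coefficients of `2 sin(n θ)` in powers of `2 sin θ` -/
def cc (n : ℚ) (k : ℕ) : ℚ := n * Pr n k / (4^k * ((2*k+1).factorial : ℚ))

theorem cc_zero (n : ℚ) : cc n 0 = n := by unfold cc Pr; simp

theorem cc_rec (n : ℚ) (k : ℕ) : cc (n+2) (k+1) = 2 * cc n (k+1) - cc n k - cc (n-2) (k+1) := by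
  have h1 := Pr_shift n k
  have h2 : Pr (n-2) (k+1) = -(Pr n k * (2*k+1-n) * (2*k+3-n)) := by
    have := Pr_shift (-n) k
    rw [Pr_neg, show -n+2 = -(n-2) by ring, Pr_neg] at this
    rw [this]; ring
  have h3 : Pr n (k+1) = Pr n k * ((2*k+1)^2 - n^2) := by
    unfold Pr; rw [prod_range_succ]
  unfold cc
  rw [h1, h2, h3, show 2*(k+1)+1 = (2*k+1)+1+1 by ring, Nat.factorial_succ, Nat.factorial_succ]
  have hf : ((2*k+1).factorial : ℚ) ≠ 0 := by positivity
  push_cast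
  field_simp
  ring

theorem cc_van {m k : ℕ} (h : m < k) : cc (2*m+1) k = 0 := by
  unfold cc Pr
  rw [prod_eq_zero (mem_range.2 h) (by ring)]
  simp

/-- the product `∏_{0 ≤ j < k} (j^2 - n^2)` -/
def Sr (n : ℚ) (k : ℕ) : ℚ := ∏ j ∈ range k, ((j:ℚ)^2 - n^2)

theorem Sr_shift (n : ℚ) (k : ℕ) : n * Sr (n+1) (k+1) = -((n+1) * Sr n k * (k+n) * (k+1+n)) := by
  unfold Sr
  induction k with
  | zero => simp; ring
  | succ k ih =>
    rw [prod_range_succ, ← mul_assoc, ih, prod_range_succ]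
    push_cast
    ring

theorem Sr_neg (n : ℚ) (k : ℕ) : Sr (-n) k = Sr n k := by
  unfold Sr
  refine prod_congr rfl fun j _ => ?_
  ring

/-- coefficients of `2 cos(2 n θ)` in powers of `2 sin θ` -/
def ee (n : ℚ) (k : ℕ) : ℚ := 2 * Sr n k / ((2*k).factorial : ℚ)

theorem ee_zero (n : ℚ) : ee n 0 = 2 := by unfold ee Sr; simp

theorem ee_rec (n : ℚ) (hn : n ≠ 0) (k : ℕ) : ee (n+1) (k+1) = 2 * ee n (k+1) - ee n k - ee (n-1) (k+1) := by
  have h1 := Sr_shift n k
  have h2 : n * Sr (n-1) (k+1) = -((n-1) * Sr n k * (k-n) * (k+1-n)) := by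
    have := Sr_shift (-n) k
    rw [Sr_neg, show -n+1 = -(n-1) by ring, Sr_neg] at this
    linear_combination -this
  have h3 : Sr n (k+1) = Sr n k * ((k:ℚ)^2 - n^2) := by
    unfold Sr; rw [prod_range_succ]
  unfold ee
  rw [h3, show 2*(k+1) = (2*k)+1+1 by ring, Nat.factorial_succ, Nat.factorial_succ]
  have hf : ((2*k).factorial : ℚ) ≠ 0 := by positivity
  have key : Sr (n+1) (k+1) + Sr (n-1) (k+1) - 2 * (Sr n k * ((k:ℚ)^2 - n^2)) = -(Sr n k * (2*k+1)*(2*k+2)) := by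
    apply mul_left_cancel₀ hn
    linear_combination h1 + h2
  push_cast
  have hk : (2*(k:ℚ)+1) ≠ 0 := by positivity
  have hk2 : (2*(k:ℚ)+1+1) ≠ 0 := by positivity
  field_simp
  linear_combination key

theorem ee_van {m k : ℕ} (h : m < k) : ee m k = 0 := by
  unfold ee Sr
  rw [prod_eq_zero (mem_range.2 h) (by ring)]
  simp

/-- the pair sequences -/
def ab : ℕ → ℤ × ℤ
  | 0 => (1, 0)
  | 1 => (1, -1)
  | (m+2) => (-(ab (m+1)).2 - (ab m).1, (ab (m+1)).2 - (ab (m+1)).1 - (ab m).2)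

def cd : ℕ → ℤ × ℤ
  | 0 => (0, 2)
  | 1 => (-1, 1)
  | (m+2) => (-(cd (m+1)).2 - (cd m).1, (cd (m+1)).2 - (cd (m+1)).1 - (cd m).2)

theorem ab_five (m : ℕ) : ab (m+5) = -ab m ∧ ab (m+6) = -ab (m+1) := by
  induction m with
  | zero => decide
  | succ m ih =>
    refine ⟨by rw [show m+1+5 = m+6 by ring]; exact ih.2, ?_⟩
    have e1 : ab (m+7) = (-(ab (m+6)).2 - (ab (m+5)).1, (ab (m+6)).2 - (ab (m+6)).1 - (ab (m+5)).2) := by
      rw [show m+7 = (m+5)+2 by ring, ab]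
    have e2 : ab (m+1+1) = (-(ab (m+1)).2 - (ab m).1, (ab (m+1)).2 - (ab (m+1)).1 - (ab m).2) := by
      rw [show m+1+1 = m+2 by ring, ab]
    rw [show m+1+6 = m+7 by ring, e1, e2, ih.1, ih.2]
    ext <;> simp <;> ring

theorem cd_five (m : ℕ) : cd (m+5) = -cd m ∧ cd (m+6) = -cd (m+1) := by
  induction m with
  | zero => decide
  | succ m ih =>
    refine ⟨by rw [show m+1+5 = m+6 by ring]; exact ih.2, ?_⟩
    have e1 : cd (m+7) = (-(cd (m+6)).2 - (cd (m+5)).1, (cd (m+6)).2 - (cd (m+6)).1 - (cd (m+5)).2) := by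
      rw [show m+7 = (m+5)+2 by ring, cd]
    have e2 : cd (m+1+1) = (-(cd (m+1)).2 - (cd m).1, (cd (m+1)).2 - (cd (m+1)).1 - (cd m).2) := by
      rw [show m+1+1 = m+2 by ring, cd]
    rw [show m+1+6 = m+7 by ring, e1, e2, ih.1, ih.2]
    ext <;> simp <;> ring

section
variable {g : ℕ → ℚ} (hg : ∀ j, g (j+2) = g (j+1) + g j)
include hg

theorem sum_cc (m : ℕ) : ∀ K : ℕ, m < K → ∀ j : ℕ,
    ∑ k ∈ range K, cc (2*m+1) k * g (2*k+1+j) = ((ab m).1 : ℚ) * g (j+1) + ((ab m).2 : ℚ) * g j := by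
  induction m using Nat.strong_induction_on with
  | _ m ih =>
    rcases m with _ | _ | m
    · intro K hK j
      obtain ⟨L, rfl⟩ : ∃ L, K = L+1 := ⟨K-1, by omega⟩
      rw [sum_range_succ', sum_eq_zero]
      · simp [cc_zero, ab, add_comm]
      · intro k _
        rw [cc_van (Nat.succ_pos k), zero_mul]
    · intro K hK j
      obtain ⟨L, rfl⟩ : ∃ L, K = L+2 := ⟨K-2, by omega⟩
      rw [sum_range_succ', sum_range_succ', sum_eq_zero]
      · have e1 : cc (2*((0+1:ℕ):ℚ)+1) 0 = 3 := by rw [cc_zero]; norm_num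
        have e2 : cc (2*((0+1:ℕ):ℚ)+1) (0+1) = -1 := by
          unfold cc Pr; norm_num [Nat.factorial]
        rw [e1, e2]
        have g1 := hg (j+1)
        have g2 := hg j
        simp only [ab]
        rw [show 2*(0+1)+1+j = j+1+2 by ring, show 2*0+1+j = j+1 by ring, g1, show j+1+1 = j+2 by ring, g2]
        push_cast
        ring
      · intro k _
        rw [cc_van (by omega), zero_mul]
    · intro K hK j
      obtain ⟨L, rfl⟩ : ∃ L, K = L+1 := ⟨K-1, by omega⟩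
      have i1 := ih (m+1) (by omega) (L+1) (by omega) j
      have i1' := ih (m+1) (by omega) L (by omega) (j+2)
      have i0 := ih m (by omega) (L+1) (by omega) j
      rw [sum_range_succ'] at i1 i0
      rw [sum_range_succ']
      have e : ∀ k ∈ range L, cc (2*((m+1+1:ℕ):ℚ)+1) (k+1) * g (2*(k+1)+1+j) =
          2 * (cc (2*((m+1:ℕ):ℚ)+1) (k+1) * g (2*(k+1)+1+j)) - cc (2*((m+1:ℕ):ℚ)+1) k * g (2*k+1+(j+2)) -
          cc (2*(m:ℚ)+1) (k+1) * g (2*(k+1)+1+j) := by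
        intro k _
        have := cc_rec (2*((m+1:ℕ):ℚ)+1) k
        have h1 : (2*((m+1:ℕ):ℚ)+1) + 2 = 2*((m+1+1:ℕ):ℚ)+1 := by push_cast; ring
        have h2 : (2*((m+1:ℕ):ℚ)+1) - 2 = 2*(m:ℚ)+1 := by push_cast; ring
        rw [h1, h2] at this
        rw [this, show 2*k+1+(j+2) = 2*(k+1)+1+j by ring]
        ring
      rw [sum_congr rfl e, sum_sub_distrib, sum_sub_distrib, ← mul_sum, i1']
      have j1 := eq_sub_of_add_eq i1
      have j0 := eq_sub_of_add_eq i0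
      rw [j1, j0, cc_zero, cc_zero, cc_zero]
      have g1 := hg (j+1)
      have g2 := hg j
      simp only [ab]
      rw [show j+2+1 = j+1+2 by ring, g1, show j+1+1 = j+2 by ring, g2]
      push_cast
      ring

theorem sum_ee (m : ℕ) : ∀ K : ℕ, m < K → ∀ j : ℕ,
    ∑ k ∈ range K, ee m k * g (2*k+j) = ((cd m).1 : ℚ) * g (j+1) + ((cd m).2 : ℚ) * g j := by
  induction m using Nat.strong_induction_on with
  | _ m ih =>
    rcases m with _ | _ | m
    · intro K hK j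
      obtain ⟨L, rfl⟩ : ∃ L, K = L+1 := ⟨K-1, by omega⟩
      rw [sum_range_succ', sum_eq_zero]
      · simp [ee_zero, cd]
      · intro k _
        rw [ee_van (Nat.succ_pos k), zero_mul]
    · intro K hK j
      obtain ⟨L, rfl⟩ : ∃ L, K = L+2 := ⟨K-2, by omega⟩
      rw [sum_range_succ', sum_range_succ', sum_eq_zero]
      · have e1 : ee ((0+1:ℕ):ℚ) 0 = 2 := by rw [ee_zero]
        have e2 : ee ((0+1:ℕ):ℚ) (0+1) = -1 := by
          unfold ee Sr; norm_num [Nat.factorial]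
        rw [e1, e2]
        have g2 := hg j
        simp only [cd]
        rw [show 2*(0+1)+j = j+2 by ring, show 2*0+j = j by ring, g2]
        push_cast
        ring
      · intro k _
        rw [ee_van (by omega), zero_mul]
    · intro K hK j
      obtain ⟨L, rfl⟩ : ∃ L, K = L+1 := ⟨K-1, by omega⟩
      have i1 := ih (m+1) (by omega) (L+1) (by omega) j
      have i1' := ih (m+1) (by omega) L (by omega) (j+2)
      have i0 := ih m (by omega) (L+1) (by omega) j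
      rw [sum_range_succ'] at i1 i0
      rw [sum_range_succ']
      have e : ∀ k ∈ range L, ee ((m+1+1:ℕ):ℚ) (k+1) * g (2*(k+1)+j) =
          2 * (ee ((m+1:ℕ):ℚ) (k+1) * g (2*(k+1)+j)) - ee ((m+1:ℕ):ℚ) k * g (2*k+(j+2)) -
          ee (m:ℚ) (k+1) * g (2*(k+1)+j) := by
        intro k _
        have := ee_rec ((m+1:ℕ):ℚ) (by positivity) k
        have h1 : ((m+1:ℕ):ℚ) + 1 = ((m+1+1:ℕ):ℚ) := by push_cast; ring
        have h2 : ((m+1:ℕ):ℚ) - 1 = (m:ℚ) := by push_cast; ring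
        rw [h1, h2] at this
        rw [this, show 2*k+(j+2) = 2*(k+1)+j by ring]
        ring
      rw [sum_congr rfl e, sum_sub_distrib, sum_sub_distrib, ← mul_sum, i1']
      have j1 := eq_sub_of_add_eq i1
      have j0 := eq_sub_of_add_eq i0
      rw [j1, j0, ee_zero, ee_zero, ee_zero]
      have g1 := hg (j+1)
      have g2 := hg j
      simp only [cd]
      rw [show j+2+1 = j+1+2 by ring, g1, show j+1+1 = j+2 by ring, g2]
      push_cast
      ring

end

/-- product form of the coefficient -/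
theorem cc_prod (n : ℚ) (k : ℕ) : cc n k = n * (((2*k).choose k : ℕ) : ℚ) / ((2*k+1) * 16^k) * ∏ j ∈ range k, (1 - n^2/(2*(j:ℚ)+1)^2) := by
  unfold cc Pr
  have h : ∏ j ∈ range k, ((2*(j:ℚ)+1)^2 - n^2) = (∏ j ∈ range k, (2*(j:ℚ)+1))^2 * ∏ j ∈ range k, (1 - n^2/(2*(j:ℚ)+1)^2) := by
    rw [← prod_pow, ← prod_mul_distrib]
    refine prod_congr rfl fun j _ => ?_
    have : (2*(j:ℚ)+1) ≠ 0 := by positivity
    field_simp
  have h2 : (∏ j ∈ range k, (2*(j:ℚ)+1)) * (2^k * (k.factorial : ℚ)) = ((2*k).factorial : ℚ) := by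
    clear h
    induction k with
    | zero => simp
    | succ k ih =>
      rw [prod_range_succ, show 2*(k+1) = 2*k+1+1 by ring, Nat.factorial_succ, Nat.factorial_succ, Nat.factorial_succ]
      push_cast
      rw [← ih, pow_succ]
      ring
  rw [h, Nat.cast_choose ℚ (by omega : k ≤ 2*k), show 2*k-k = k by omega, Nat.factorial_succ]
  have f1 : (k.factorial : ℚ) ≠ 0 := by positivity
  have f2 : ((2*k).factorial : ℚ) ≠ 0 := by positivity
  have f3 : (2*(k:ℚ)+1) ≠ 0 := by positivity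
  generalize ∏ j ∈ range k, (1 - n^2/(2*(j:ℚ)+1)^2) = Q
  have h3 : ∏ j ∈ range k, (2*(j:ℚ)+1) = ((2*k).factorial : ℚ) / (2^k * (k.factorial : ℚ)) := by
    rw [eq_div_iff (by positivity)]; exact h2
  rw [h3]
  have e16 : (16:ℚ)^k = 4^k * (2^k)^2 := by rw [← pow_mul, mul_comm k 2, pow_mul, ← mul_pow]; norm_num
  rw [e16]
  push_cast
  field_simp

theorem ee_prod (n : ℚ) (k : ℕ) (hk : 1 ≤ k) : ee n k = -(2 * n^2 / ((k:ℚ)^2 * (((2*k).choose k : ℕ) : ℚ))) * ∏ j ∈ range (k-1), (1 - n^2/((j:ℚ)+1)^2) := by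
  obtain ⟨l, rfl⟩ : ∃ l, k = l+1 := ⟨k-1, by omega⟩
  unfold ee Sr
  rw [prod_range_succ', Nat.add_sub_cancel]
  have h : ∏ j ∈ range l, (((j+1:ℕ):ℚ)^2 - n^2) = (l.factorial : ℚ)^2 * ∏ j ∈ range l, (1 - n^2/((j:ℚ)+1)^2) := by
    have : (l.factorial : ℚ) = ∏ j ∈ range l, ((j:ℚ)+1) := by
      rw [← Finset.prod_range_add_one_eq_factorial]; push_cast; rfl
    rw [this, ← prod_pow, ← prod_mul_distrib]
    refine prod_congr rfl fun j _ => ?_
    have : ((j:ℚ)+1) ≠ 0 := by positivity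
    push_cast
    field_simp
  rw [h, Nat.cast_choose ℚ (by omega : l+1 ≤ 2*(l+1)), show 2*(l+1)-(l+1) = l+1 by omega, Nat.factorial_succ l]
  have f1 : (l.factorial : ℚ) ≠ 0 := by positivity
  have f2 : ((2*(l+1)).factorial : ℚ) ≠ 0 := by positivity
  have f3 : ((l:ℚ)+1) ≠ 0 := by positivity
  push_cast
  field_simp
  ring

/-- last coefficients -/
theorem cc_last (m : ℕ) : cc (2*m+1) m = (-1)^m := by
  induction m with
  | zero => rw [cc_zero]; norm_num
  | succ m ih =>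
    have h := cc_rec (2*(m:ℚ)+1) m
    have h1 : (2*(m:ℚ)+1) + 2 = 2*((m+1:ℕ):ℚ)+1 := by push_cast; ring
    rw [h1] at h
    rw [h, cc_van (Nat.lt_succ_self m), ih]
    rcases m with _ | m
    · have : cc (2*((0:ℕ):ℚ)+1-2) (0+1) = 0 := by
        unfold cc Pr; norm_num
      rw [this]; norm_num
    · have h2 : (2*((m+1:ℕ):ℚ)+1) - 2 = 2*(m:ℚ)+1 := by push_cast; ring
      rw [h2, cc_van (by omega)]
      ring

theorem ee_last (m : ℕ) (hm : 1 ≤ m) : ee m m = (-1)^m := by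
  induction m, hm using Nat.le_induction with
  | base => unfold ee Sr; norm_num [Nat.factorial]
  | succ m hm ih =>
    have h := ee_rec (m:ℚ) (by positivity) m
    have h1 : (m:ℚ) + 1 = ((m+1:ℕ):ℚ) := by push_cast; ring
    rw [h1] at h
    obtain ⟨l, rfl⟩ : ∃ l, m = l+1 := ⟨m-1, by omega⟩
    have h2 : ((l+1:ℕ):ℚ) - 1 = (l:ℚ) := by push_cast; ring
    rw [h, ee_van (Nat.lt_succ_self _), ih, h2, ee_van (by omega)]
    ring

end Pool.Agent.N926.Fib
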