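import Pool.Agent.N926.Fib.A
import Pool.Agent.N926.F37.C

/-! `p`-adic part -/

set_option autoImplicit false
set_option linter.unusedVariables false
set_option linter.unusedSectionVars false

namespace Pool.Agent.N926.Fib

open Finset Pool.Agent.N926.Sup2 Pool.Agent.N926.Sup Pool.Agent.N926.F54 Pool.Agent.N926.F37

/-- Lucas numbers -/
def luc : ℕ → ℤ
  | 0 => 2
  | 1 => 1
  | (n+2) => luc (n+1) + luc n

def gF (n : ℕ) : ℚ := (Nat.fib n : ℚ)
def gL (n : ℕ) : ℚ := (luc n : ℚ)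

theorem gF_rec (j : ℕ) : gF (j+2) = gF (j+1) + gF j := by
  unfold gF; rw [Nat.fib_add_two]; push_cast; ring

theorem gL_rec (j : ℕ) : gL (j+2) = gL (j+1) + gL j := by
  unfold gL; rw [luc]; push_cast; ring

theorem gF0 : gF 0 = 0 := by unfold gF; simp
theorem gF1 : gF 1 = 1 := by unfold gF; simp
theorem gL0 : gL 0 = 2 := by unfold gL luc; norm_num
theorem gL1 : gL 1 = 1 := by unfold gL luc; norm_num

theorem step (n : ℕ) : 2 * gF (n+1) = gF n + gL n ∧ 2 * gL (n+1) = 5 * gF n + gL n := by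
  induction n with
  | zero => rw [zero_add, gF0, gF1, gL0, gL1]; norm_num
  | succ n ih =>
    obtain ⟨h1, h2⟩ := ih
    have a := gF_rec n
    have b := gL_rec n
    rw [show n+1+1 = n+2 by ring]
    constructor
    · linear_combination 2*a + (1/2)*h1 - (1/2)*h2
    · linear_combination 2*b - (5/2)*h1 + (1/2)*h2

theorem add_form (m n : ℕ) : 2 * gF (m+n) = gF m * gL n + gL m * gF n ∧ 2 * gL (m+n) = gL m * gL n + 5 * gF m * gF n := by
  induction n with
  | zero => rw [add_zero, gF0, gL0]; constructor <;> ring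
  | succ n ih =>
    obtain ⟨h1, h2⟩ := ih
    obtain ⟨a1, a2⟩ := step (m+n)
    obtain ⟨b1, b2⟩ := step n
    rw [← add_assoc]
    constructor
    · linear_combination a1 + (1/2)*h1 + (1/2)*h2 - (1/2)*gF m * b2 - (1/2)*gL m * b1
    · linear_combination a2 + (5/2)*h1 + (1/2)*h2 - (1/2)*gL m * b2 - (5/2)*gF m*b1

theorem norm_form (n : ℕ) : gL n ^ 2 = 5 * gF n ^ 2 + 4*(-1)^n := by
  induction n with
  | zero => rw [gF0, gL0]; norm_num
  | succ n ih =>
    obtain ⟨h1, h2⟩ := step n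
    have e1 : gF (n+1) = (gF n + gL n)/2 := by linear_combination (1/2)*h1
    have e2 : gL (n+1) = (5*gF n + gL n)/2 := by linear_combination (1/2)*h2
    rw [e1, e2, pow_succ]
    linear_combination -ih

theorem ab_ten (q r : ℕ) : ab (10*q+r) = ab r := by
  induction q with
  | zero => simp
  | succ q ih =>
    rw [show 10*(q+1)+r = (10*q+r)+5+5 by ring, (ab_five _).1, (ab_five _).1, neg_neg, ih]

theorem cd_ten (q r : ℕ) : cd (10*q+r) = cd r := by
  induction q with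
  | zero => simp
  | succ q ih =>
    rw [show 10*(q+1)+r = (10*q+r)+5+5 by ring, (cd_five _).1, (cd_five _).1, neg_neg, ih]

section
variable {p : ℕ} [hp : Fact p.Prime]

theorem Pi1 {m : ℕ} (hm : p = 2*m+1) {k : ℕ} (hk : k ≤ m) : Dv p 2 (∏ j ∈ range k, (1 - (p:ℚ)^2/(2*(j:ℚ)+1)^2) - 1) := by
  have := Dv.prod1 (p := p) (n := 2) (by norm_num) (range k) (fun j => -((p:ℚ)^2/(2*(j:ℚ)+1)^2)) (by
    intro j hj
    rw [mem_range] at hj
    refine ((Dv.p_pow (p := p) 2).div_unit ?_).neg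
    have hnd : ¬ p ∣ 2*j+1 := Nat.not_dvd_of_pos_of_lt (by omega) (by omega)
    have := unit_nat hnd
    push_cast at this
    rw [padicValRat.pow, this, mul_zero])
  simpa [sub_eq_add_neg] using this

theorem Pi2 {k : ℕ} (hk : k < p) : Dv p 2 (∏ j ∈ range k, (1 - (p:ℚ)^2/((j:ℚ)+1)^2) - 1) := by
  have := Dv.prod1 (p := p) (n := 2) (by norm_num) (range k) (fun j => -((p:ℚ)^2/((j:ℚ)+1)^2)) (by
    intro j hj
    rw [mem_range] at hj
    refine ((Dv.p_pow (p := p) 2).div_unit ?_).neg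
    have hnd : ¬ p ∣ j+1 := Nat.not_dvd_of_pos_of_lt (by omega) (by omega)
    have := unit_nat hnd
    push_cast at this
    rw [padicValRat.pow, this, mul_zero])
  simpa [sub_eq_add_neg] using this

theorem cb_int (h2 : p ≠ 2) {k : ℕ} (h0 : 1 ≤ k) (hk : k < p) : Dv p 0 ((p:ℚ) / ((k:ℚ)^2 * (((2*k).choose k : ℕ) : ℚ))) := by
  have hc : (((2*k).choose k : ℕ) : ℚ) ≠ 0 := by
    have := Nat.choose_pos (show k ≤ 2*k by omega)
    positivity
  have hp2 := hp.out.two_le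
  have hv : padicValNat p ((2*k).choose k) ≤ 1 := by
    have h := Nat.factorization_choose_le_log (p := p) (n := 2*k) (k := k)
    rw [Nat.factorization_def _ hp.out] at h
    refine h.trans ?_
    have : 2*k < p^2 := by
      have : 2*p ≤ p*p := Nat.mul_le_mul_right _ hp2
      nlinarith
    have := Nat.log_lt_of_lt_pow (by omega) this
    omega
  have hu : padicValRat p (k:ℚ) = 0 := unit_nat (Nat.not_dvd_of_pos_of_lt (by omega) (by omega))
  have hpp : (p:ℚ) ≠ 0 := by exact_mod_cast hp.out.ne_zero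
  have hk0 : (k:ℚ) ≠ 0 := by positivity
  right
  rw [padicValRat.div hpp (mul_ne_zero (pow_ne_zero _ hk0) hc), padicValRat.mul (pow_ne_zero _ hk0) hc, padicValRat.pow, hu,
    padicValRat.self hp.out.one_lt, padicValRat.of_nat]
  have : ((padicValNat p ((2*k).choose k) : ℕ) : ℤ) ≤ 1 := by exact_mod_cast hv
  simp only [mul_zero, zero_add]
  linarith

/-- the `cc` sum -/
theorem sum1 (h2 : p ≠ 2) {m : ℕ} (hm : p = 2*m+1) {g : ℕ → ℚ} (hg : ∀ j, g (j+2) = g (j+1) + g j) (gi : ∀ j, Dv p 0 (g j)) :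
    Dv p 3 (p * ∑ k ∈ range m, (((2*k).choose k : ℕ):ℚ) * g (2*k+1) / ((2*(k:ℚ)+1) * 16^k) -
      (((ab m).1 : ℚ) * g 1 + ((ab m).2 : ℚ) * g 0 - (-1)^m * g p)) := by
  have h := sum_cc hg m (m+1) (by omega) 0
  rw [sum_range_succ, cc_last, add_zero, ← hm, zero_add] at h
  rw [← h, add_sub_cancel_right, mul_sum, ← sum_sub_distrib]
  refine Dv.sum _ _ fun k hk => ?_
  rw [mem_range] at hk
  rw [cc_prod, add_zero]
  have hP := Pi1 hm (k := k) hk.le
  have hn : (2*(m:ℚ)+1) = p := by rw [hm]; push_cast; ring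
  rw [hn]
  have u1 : padicValRat p ((2*(k:ℚ)+1) * 16^k) = 0 := by
    have hnd : ¬ p ∣ (2*k+1) * 16^k := by
      intro hd
      rcases (hp.out.dvd_mul).1 hd with hd | hd
      · exact Nat.not_dvd_of_pos_of_lt (by omega) (by omega) hd
      · have := hp.out.dvd_of_dvd_pow hd
        have h16 : p ∣ 2^4 := by norm_num; exact this
        exact h2 ((Nat.prime_dvd_prime_iff_eq hp.out Nat.prime_two).1 (hp.out.dvd_of_dvd_pow h16))
    have := unit_nat hnd
    push_cast at this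
    exact this
  have hc : Dv p 0 ((((2*k).choose k : ℕ):ℚ) / ((2*(k:ℚ)+1) * 16^k)) := (Dv.nat _).div_unit u1
  have := (Dv.p1 (p := p)).mul ((hc.mul0 (gi (2*k+1))).mul0' hP.neg)
  refine Dv_eq ?_ (this.mono (by norm_num : (3:ℤ) ≤ 1+2))
  ring

/-- the `ee` sum -/
theorem sum2 (h2 : p ≠ 2) {g : ℕ → ℚ} (hg : ∀ j, g (j+2) = g (j+1) + g j) (gi : ∀ j, Dv p 0 (g j)) :
    Dv p 3 (2 * p * (p * ∑ k ∈ range (p-1), g (2*(k+1)) / (((k+1:ℕ):ℚ)^2 * (((2*(k+1)).choose (k+1) : ℕ):ℚ))) +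
      (((cd p).1 : ℚ) * g 1 + ((cd p).2 : ℚ) * g 0 - 2 * g 0 + g (2*p))) := by
  have hp2 := hp.out.two_le
  have hodd : p % 2 = 1 := hp.out.eq_two_or_odd.resolve_left h2
  have h := sum_ee hg p (p+1) (by omega) 0
  obtain ⟨r, hr⟩ : ∃ r, p = r+1 := ⟨p-1, by omega⟩
  rw [sum_range_succ, ee_last p (by omega), Odd.neg_one_pow (Nat.odd_iff.2 hodd)] at h
  have h' : ∑ k ∈ range p, ee p k * g (2*k+0) = ∑ k ∈ range (p-1), ee p (k+1) * g (2*(k+1)) + 2 * g 0 := by
    have : range p = range ((p-1)+1) := by rw [Nat.sub_add_cancel (by omega)]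
    rw [this, sum_range_succ', ee_zero]
    simp only [mul_zero, add_zero]
  rw [h', add_zero, zero_add] at h
  have e : (((cd p).1 : ℚ) * g 1 + ((cd p).2 : ℚ) * g 0 - 2 * g 0 + g (2*p)) = ∑ k ∈ range (p-1), ee p (k+1) * g (2*(k+1)) := by
    rw [← h]; ring
  rw [e, mul_sum, mul_sum, ← sum_add_distrib]
  refine Dv.sum _ _ fun k hk => ?_
  rw [mem_range] at hk
  rw [ee_prod _ _ (by omega), Nat.add_sub_cancel]
  have hP := Pi2 (p := p) (k := k) (by omega)
  have hc := cb_int h2 (k := k+1) (by omega) (by omega)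
  have := (Dv.p1 (p := p)).mul ((((d2 (p := p)).mul0 hc).mul0 (gi (2*(k+1)))).mul0' hP.neg)
  refine Dv_eq ?_ (this.mono (by norm_num : (3:ℤ) ≤ 1+2))
  ring

end

end Pool.Agent.N926.Fib
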