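import Pool.Agent.N926.Fib.B

/-! evaluation modulo `p^2` -/

set_option autoImplicit false
set_option linter.unusedVariables false
set_option linter.unusedSectionVars false

namespace Pool.Agent.N926.Fib

open Finset Pool.Agent.N926.Sup2 Pool.Agent.N926.Sup Pool.Agent.N926.F54 Pool.Agent.N926.F37

section
variable {p : ℕ} [hp : Fact p.Prime]

theorem gFi (j : ℕ) : Dv p 0 (gF j) := Dv.nat _
theorem gLi (j : ℕ) : Dv p 0 (gL j) := Dv.int _

/-- the data attached to `p` -/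
structure Dat (p : ℕ) (m : ℕ) (e u L : ℚ) : Prop where
  e1 : e*e = 1
  ei : Dv p 0 e
  hF : 2 * gF p = e * (L + u)
  hL : 2 * gL p = 5*u + L
  nm : L^2 = 5*u^2 + 4
  ui : Dv p 0 u
  Li : Dv p 0 L
  aF : ((ab m).1 : ℚ) = (-1)^m * e
  aL : ((ab m).1 : ℚ) + 2 * ((ab m).2 : ℚ) = (-1)^m
  cF : ((cd p).1 : ℚ) = -e
  cL : ((cd p).1 : ℚ) + 2 * ((cd p).2 : ℚ) = 1

variable (h2 : p ≠ 2) {m : ℕ} (hm : p = 2*m+1) {e u L : ℚ} (D : Dat p m e u L)
include h2 hm D

theorem four_unit : padicValRat p (4:ℚ) = 0 := by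
  have := val_two (p := p) h2
  have h : (4:ℚ) = 2^2 := by norm_num
  rw [h, padicValRat.pow, this, mul_zero]

theorem s_unit : ((-1:ℚ)^m) * (-1)^m = 1 := by rw [← mul_pow]; norm_num

theorem si : Dv p 0 ((-1:ℚ)^m) := by
  have := (Dv.int (p := p) ((-1)^m))
  push_cast at this
  exact this

/-- `g(p)` modulo `p` -/
theorem base : Dv p 1 (gF p - e) ∧ Dv p 1 (gL p - 1) := by
  have ss := s_unit h2 hm D
  have si := si h2 hm D
  constructor
  · have h := (sum1 h2 hm gF_rec gFi).mono (by norm_num : (1:ℤ) ≤ 3)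
    rw [gF0, gF1, mul_one, mul_zero, add_zero, D.aF] at h
    have hS : Dv p 0 (∑ k ∈ range m, (((2*k).choose k : ℕ):ℚ) * gF (2*k+1) / ((2*(k:ℚ)+1) * 16^k)) := by
      refine Dv.sum _ _ fun k hk => ?_
      rw [mem_range] at hk
      refine ((Dv.nat _).mul0 (gFi _)).div_unit ?_
      have hnd : ¬ p ∣ (2*k+1) * 16^k := by
        intro hd
        rcases (hp.out.dvd_mul).1 hd with hd | hd
        · exact Nat.not_dvd_of_pos_of_lt (by omega) (by omega) hd
        · have := hp.out.dvd_of_dvd_pow hd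
          have h16 : p ∣ 2^4 := by norm_num; exact this
          exact h2 ((Nat.prime_dvd_prime_iff_eq hp.out Nat.prime_two).1 (hp.out.dvd_of_dvd_pow h16))
      have := unit_nat hnd
      push_cast at this
      exact this
    have k := si.mul0' (h.sub ((Dv.p1 (p := p)).mul0 hS))
    refine Dv_eq ?_ k
    linear_combination (gF p - e) * ss
  · have h := (sum1 h2 hm gL_rec gLi).mono (by norm_num : (1:ℤ) ≤ 3)
    rw [gL0, gL1, mul_one] at h
    have hS : Dv p 0 (∑ k ∈ range m, (((2*k).choose k : ℕ):ℚ) * gL (2*k+1) / ((2*(k:ℚ)+1) * 16^k)) := by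
      refine Dv.sum _ _ fun k hk => ?_
      rw [mem_range] at hk
      refine ((Dv.nat _).mul0 (gLi _)).div_unit ?_
      have hnd : ¬ p ∣ (2*k+1) * 16^k := by
        intro hd
        rcases (hp.out.dvd_mul).1 hd with hd | hd
        · exact Nat.not_dvd_of_pos_of_lt (by omega) (by omega) hd
        · have := hp.out.dvd_of_dvd_pow hd
          have h16 : p ∣ 2^4 := by norm_num; exact this
          exact h2 ((Nat.prime_dvd_prime_iff_eq hp.out Nat.prime_two).1 (hp.out.dvd_of_dvd_pow h16))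
      have := unit_nat hnd
      push_cast at this
      exact this
    have k := si.mul0' (h.sub ((Dv.p1 (p := p)).mul0 hS))
    refine Dv_eq ?_ k
    have := D.aL
    linear_combination (gL p - 1) * ss - (-1)^m * D.aL

theorem uL : Dv p 1 u ∧ Dv p 1 (L - 2) := by
  obtain ⟨b1, b2⟩ := base h2 hm D
  have k1 : Dv p 1 (4 * u) := by
    have := ((d2 (p := p)).mul0' b2).sub ((d2 (p := p)).mul0' (D.ei.mul0' b1))
    refine Dv_eq ?_ this
    linear_combination D.hL - e * D.hF + (2 - L - u) * D.e1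
  have hu := k1.of_unit_mul (four_unit h2 hm D) (by norm_num)
  refine ⟨hu, ?_⟩
  have := ((d2 (p := p)).mul0' (D.ei.mul0' b1)).sub hu
  refine Dv_eq ?_ this
  linear_combination e * D.hF + (L + u - 2) * D.e1

theorem Lexp : Dv p 4 (L - 2 - 5*u^2/4) := by
  obtain ⟨hu, hL⟩ := uL h2 hm D
  have v4 := four_unit h2 hm D
  have un : L + 2 ≠ 0 ∧ padicValRat p (L+2) = 0 := by
    refine unit_of_cong (y := 4) ?_ (by norm_num) v4
    exact Dv_eq (by ring) hL
  have d5 : Dv p 0 (5:ℚ) := by simpa using Dv.nat (p := p) 5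
  have q4 : Dv p 0 (1/4:ℚ) := Dv.one.div_unit v4
  have k1 : Dv p 2 (L - 2) := by
    refine Dv.of_unit_mul un.2 un.1 ?_
    have := d5.mul0' (hu.mul hu)
    refine Dv_eq ?_ this
    linear_combination -D.nm
  refine Dv.of_unit_mul un.2 un.1 ?_
  have k2 := ((d5.mul0 q4).mul0' (hu.mul hu)).mul k1
  refine Dv_eq ?_ (k2.neg.mono (by norm_num : (4:ℤ) ≤ (1+1)+2))
  linear_combination -D.nm

theorem odd_s : (-1:ℚ)^(m+1) = -(-1)^m := by rw [pow_succ]; ring

theorem half : Dv p 0 (1/2:ℚ) := half_int h2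

/-- dividing by `p` -/
theorem divp {x y : ℚ} (h : Dv p 3 (p * x - y)) {z : ℚ} (hz : Dv p 3 (y - p*z)) : Dv p 2 (x - z) := by
  have k := h.add hz
  have k2 : Dv p (2 + (1:ℕ)) ((p:ℚ)^1 * (x - z)) := Dv_eq (by ring) (k.mono (by norm_num : (2:ℤ)+(1:ℕ) ≤ 3))
  exact Dv.of_p_mul k2

theorem c3 : Dv p 2 (∑ k ∈ range m, (((2*k).choose k : ℕ):ℚ) * gF (2*k+1) / ((2*(k:ℚ)+1) * 16^k) -
    (-1)^(m+1) * e * (u/p/2 + 5*p*(u/p)^2/8)) := by
  have h := sum1 h2 hm gF_rec gFi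
  rw [gF0, gF1, mul_one, mul_zero, add_zero, D.aF] at h
  refine divp h2 hm D h ?_
  have hpp : (p:ℚ) ≠ 0 := by exact_mod_cast hp.out.ne_zero
  have k := ((si h2 hm D).mul0 D.ei).mul0' ((half h2 hm D).mul0' ((Lexp h2 hm D).mono (by norm_num : (3:ℤ) ≤ 4)))
  refine Dv_eq ?_ k.neg
  rw [odd_s h2 hm D]
  field_simp
  linear_combination 32 * D.hF

theorem c4 : Dv p 2 (∑ k ∈ range m, (((2*k).choose k : ℕ):ℚ) * gL (2*k+1) / ((2*(k:ℚ)+1) * 16^k) -
    (-1)^(m+1) * (5*(u/p)/2 + 5*p*(u/p)^2/8)) := by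
  have h := sum1 h2 hm gL_rec gLi
  rw [gL0, gL1, mul_one] at h
  refine divp h2 hm D h ?_
  have hpp : (p:ℚ) ≠ 0 := by exact_mod_cast hp.out.ne_zero
  have k := (si h2 hm D).mul0' ((half h2 hm D).mul0' ((Lexp h2 hm D).mono (by norm_num : (3:ℤ) ≤ 4)))
  refine Dv_eq ?_ k.neg
  rw [odd_s h2 hm D]
  field_simp
  linear_combination 32*(-1)^m * D.hL - 64*D.aL

theorem c1 : Dv p 2 (p * ∑ k ∈ range (p-1), gF (2*(k+1)) / (((k+1:ℕ):ℚ)^2 * (((2*(k+1)).choose (k+1) : ℕ):ℚ)) -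
    -(e * (3*(u/p)/2 + 5*p*(u/p)^2/4))) := by
  have h := sum2 (p := p) h2 gF_rec gFi
  rw [gF0, gF1, mul_one, mul_zero, add_zero, mul_zero, sub_zero, D.cF] at h
  have hpp : (p:ℚ) ≠ 0 := by exact_mod_cast hp.out.ne_zero
  have d3 : Dv p 0 (3:ℚ) := by simpa using Dv.nat (p := p) 3
  have hu := (uL h2 hm D).1.mono (by norm_num : (0:ℤ) ≤ 1)
  -- F_{2p}
  have hF2 : gF (2*p) = e * (1 + 5*u^2/2 + 3*u*L/2) := by
    have := (add_form p p).1
    rw [← two_mul] at this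
    have a := D.hF
    have b := D.hL
    have c := D.nm
    have x1 : gF p = e*(L+u)/2 := by linear_combination (1/2)*a
    have x2 : gL p = (5*u+L)/2 := by linear_combination (1/2)*b
    rw [x1, x2] at this
    linear_combination (1/2)*this + (e/4)*c
  rw [hF2] at h
  refine divp h2 hm D (y := -(1/2) * (-e + e * (1 + 5*u^2/2 + 3*u*L/2))) ?_ ?_
  · refine Dv_eq ?_ ((half h2 hm D).mul0' h)
    ring
  · have k := ((D.ei.mul0 (half h2 hm D)).mul0 (half h2 hm D)).mul0 (d3.mul0 hu) |>.mul0' ((Lexp h2 hm D).mono (by norm_num : (3:ℤ) ≤ 4))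
    have d15 : Dv p 0 (15:ℚ) := by simpa using Dv.nat (p := p) 15
    have k3 : Dv p 3 (e * (1/2) * (1/2) * (1/2) * (1/2) * 15 * (u*(u*u))) := by
      have hu1 := (uL h2 hm D).1
      have hh := half h2 hm D
      exact ((((((D.ei.mul0 hh).mul0 hh).mul0 hh).mul0 hh).mul0 d15)).mul0' ((hu1.mul (hu1.mul hu1)).mono (by norm_num))
    refine Dv_eq ?_ (k.neg.sub k3)
    field_simp
    ring

theorem c2 : Dv p 2 (p * ∑ k ∈ range (p-1), gL (2*(k+1)) / (((k+1:ℕ):ℚ)^2 * (((2*(k+1)).choose (k+1) : ℕ):ℚ)) -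
    (-(5*(u/p)/2) - 15*p*(u/p)^2/4)) := by
  have h := sum2 (p := p) h2 gL_rec gLi
  rw [gL0, gL1, mul_one] at h
  have hpp : (p:ℚ) ≠ 0 := by exact_mod_cast hp.out.ne_zero
  have d5 : Dv p 0 (5:ℚ) := by simpa using Dv.nat (p := p) 5
  have hu := (uL h2 hm D).1.mono (by norm_num : (0:ℤ) ≤ 1)
  have hL2 : gL (2*p) = 3 + 15*u^2/2 + 5*u*L/2 := by
    have := (add_form p p).2
    rw [← two_mul] at this
    have a := D.hF
    have b := D.hL
    have c := D.nm
    have x1 : gF p = e*(L+u)/2 := by linear_combination (1/2)*a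
    have x2 : gL p = (5*u+L)/2 := by linear_combination (1/2)*b
    rw [x1, x2] at this
    linear_combination (1/2)*this + (3/4)*c + (5/8*(L+u)^2)*D.e1
  rw [hL2] at h
  refine divp h2 hm D (y := -(1/2) * (((cd p).1 : ℚ) + ((cd p).2 : ℚ) * 2 - 2 * 2 + (3 + 15*u^2/2 + 5*u*L/2))) ?_ ?_
  · refine Dv_eq ?_ ((half h2 hm D).mul0' h)
    ring
  · have k := (((half h2 hm D)).mul0 (half h2 hm D)).mul0 (d5.mul0 hu) |>.mul0' ((Lexp h2 hm D).mono (by norm_num : (3:ℤ) ≤ 4))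
    have d25 : Dv p 0 (25:ℚ) := by simpa using Dv.nat (p := p) 25
    have k3 : Dv p 3 ((1/2) * (1/2) * (1/2) * (1/2) * 25 * (u*(u*u))) := by
      have hu1 := (uL h2 hm D).1
      have hh := half h2 hm D
      exact (((((hh.mul0 hh).mul0 hh).mul0 hh).mul0 d25)).mul0' ((hu1.mul (hu1.mul hu1)).mono (by norm_num))
    refine Dv_eq ?_ (k.neg.sub k3)
    have := D.cL
    field_simp
    linear_combination 32*this

end

end Pool.Agent.N926.Fib
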